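import Pool.Agent.helper84.HF.SpecH

set_option autoImplicit false

open Finset

namespace Pool.Agent.HF

/-- exponential sum -/
noncomputable def FEJ_E {β : Type} (T : Finset β) (g : β → ℕ) (M : ℕ) (l : ℕ) : ℂ :=
  ∑ t ∈ T, Complex.exp (2 * Real.pi * Complex.I * (l : ℂ) * (g t : ℂ) / (M : ℂ))

lemma FEJ_term (M l u v : ℕ) :
    Complex.exp (2 * Real.pi * Complex.I * (l : ℂ) * (u : ℂ) / (M : ℂ)) *
      (starRingEnd ℂ) (Complex.exp (2 * Real.pi * Complex.I * (l : ℂ) * (v : ℂ) / (M : ℂ)))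
      = (Complex.exp (2 * Real.pi * Complex.I / (M : ℂ)) ^ ((u : ℤ) - v)) ^ l := by
  rw [← Complex.exp_conj, ← Complex.exp_add, ← Complex.exp_int_mul, ← Complex.exp_nat_mul]
  congr 1
  simp only [map_mul, map_div₀, Complex.conj_I, Complex.conj_ofReal, map_ofNat, map_natCast]
  push_cast
  ring

lemma FEJ_orth (M : ℕ) (hM : 0 < M) (u v : ℕ) :
    ∑ l ∈ range M, Complex.exp (2 * Real.pi * Complex.I * (l : ℂ) * (u : ℂ) / (M : ℂ)) *
      (starRingEnd ℂ) (Complex.exp (2 * Real.pi * Complex.I * (l : ℂ) * (v : ℂ) / (M : ℂ)))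
      = if (M : ℤ) ∣ (u : ℤ) - v then (M : ℂ) else 0 := by
  have hζ := Complex.isPrimitiveRoot_exp M hM.ne'
  rw [Finset.sum_congr rfl fun l _ => FEJ_term M l u v]
  split_ifs with h
  · rw [(hζ.zpow_eq_one_iff_dvd _).2 h]
    simp
  · have hne : Complex.exp (2 * Real.pi * Complex.I / (M : ℂ)) ^ ((u : ℤ) - v) ≠ 1 := by
      intro h1
      exact h ((hζ.zpow_eq_one_iff_dvd _).1 h1)
    have h5 : (Complex.exp (2 * Real.pi * Complex.I / (M : ℂ)) ^ ((u : ℤ) - v)) ^ M = 1 := by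
      rw [← zpow_natCast, ← zpow_mul, mul_comm ((u : ℤ) - v), zpow_mul, zpow_natCast, hζ.pow_eq_one, one_zpow]
    rw [geom_sum_eq hne, h5, sub_self, zero_div]

lemma FEJ_pars {β : Type} (T : Finset β) (g : β → ℕ) (M : ℕ) (hM : 0 < M) :
    ∑ l ∈ range M, ‖FEJ_E T g M l‖ ^ 2 = (M : ℝ) * (((T ×ˢ T).filter fun z => (M : ℤ) ∣ (g z.1 : ℤ) - g z.2).card : ℝ) := by
  have h1 : ((∑ l ∈ range M, ‖FEJ_E T g M l‖ ^ 2 : ℝ) : ℂ)
      = ((M : ℝ) * (((T ×ˢ T).filter fun z => (M : ℤ) ∣ (g z.1 : ℤ) - g z.2).card : ℝ) : ℝ) := by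
    push_cast
    have h2 : ∀ l ∈ range M, (‖FEJ_E T g M l‖ : ℂ) ^ 2 = ∑ z ∈ T ×ˢ T,
        Complex.exp (2 * Real.pi * Complex.I * (l : ℂ) * (g z.1 : ℂ) / (M : ℂ)) *
        (starRingEnd ℂ) (Complex.exp (2 * Real.pi * Complex.I * (l : ℂ) * (g z.2 : ℂ) / (M : ℂ))) := by
      intro l _
      rw [← Complex.mul_conj', FEJ_E, map_sum, Finset.sum_mul_sum, Finset.sum_product]
    rw [Finset.sum_congr rfl h2, Finset.sum_comm, Finset.sum_congr rfl fun z _ => FEJ_orth M hM (g z.1) (g z.2),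
      ← Finset.sum_filter, Finset.sum_const, nsmul_eq_mul, mul_comm]
  exact_mod_cast h1

lemma FEJ_conj {β : Type} (T : Finset β) (g : β → ℕ) (M l : ℕ) (hM : 0 < M) (hl : l ≤ M) : ‖FEJ_E T g M (M - l)‖ = ‖FEJ_E T g M l‖ := by
  have h1 : FEJ_E T g M (M - l) = (starRingEnd ℂ) (FEJ_E T g M l) := by
    unfold FEJ_E
    rw [map_sum]
    refine Finset.sum_congr rfl fun t _ => ?_
    rw [← Complex.exp_conj]
    have hM' : (M : ℂ) ≠ 0 := by exact_mod_cast hM.ne'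
    have h2 : 2 * Real.pi * Complex.I * ((M - l : ℕ) : ℂ) * (g t : ℂ) / (M : ℂ)
        = (starRingEnd ℂ) (2 * Real.pi * Complex.I * (l : ℂ) * (g t : ℂ) / (M : ℂ)) + (g t : ℂ) * (2 * Real.pi * Complex.I) := by
      simp only [map_mul, map_div₀, Complex.conj_I, Complex.conj_ofReal, map_ofNat, map_natCast]
      rw [Nat.cast_sub hl]
      field_simp
      ring
    rw [h2, Complex.exp_add, Complex.exp_nat_mul_two_pi_mul_I, mul_one]
  rw [h1, RCLike.norm_conj]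

lemma FEJ_W (M w l : ℕ) (hl : 1 ≤ l) (hl2 : 2 * l ≤ M) : ‖FEJ_E (range (2 * w)) id M l‖ ≤ M / (2 * l) := by
  have hM : (0 : ℝ) < M := by exact_mod_cast (by omega : 0 < M)
  have hlp : (0 : ℝ) < l := by exact_mod_cast hl
  obtain ⟨x, hx⟩ : ∃ x : ℝ, x = 2 * Real.pi * l / M := ⟨_, rfl⟩
  obtain ⟨q, hq⟩ : ∃ q : ℂ, q = Complex.exp (Complex.I * x) := ⟨_, rfl⟩
  have h1 : FEJ_E (range (2 * w)) id M l = ∑ s ∈ range (2 * w), q ^ s := by
    unfold FEJ_E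
    refine Finset.sum_congr rfl fun s _ => ?_
    rw [hq, ← Complex.exp_nat_mul, hx]
    congr 1
    push_cast
    simp only [id]
    ring
  have h2 : ‖q - 1‖ = ‖2 * Real.sin (x / 2)‖ := by
    rw [hq]; exact Complex.norm_exp_I_mul_ofReal_sub_one x
  have hlM : 2 * (l : ℝ) ≤ M := by exact_mod_cast hl2
  have hx2 : x / 2 = Real.pi * l / M := by rw [hx]; ring
  have hpos : 0 < Real.pi := Real.pi_pos
  have h3 : 2 / Real.pi * (x / 2) ≤ Real.sin (x / 2) := by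
    apply Real.mul_le_sin
    · rw [hx2]; positivity
    · rw [hx2, div_le_div_iff₀ hM (by norm_num)]
      nlinarith
  have h4 : 2 / Real.pi * (x / 2) = 2 * l / M := by
    rw [hx2]; field_simp
  rw [h4] at h3
  have h5 : 0 < 2 * (l : ℝ) / M := by positivity
  have h6 : 4 * (l : ℝ) / M ≤ ‖q - 1‖ := by
    rw [h2, Real.norm_eq_abs, abs_of_pos (by linarith)]
    have : 4 * (l : ℝ) / M = 2 * (2 * l / M) := by ring
    linarith
  have h7 : 0 < ‖q - 1‖ := lt_of_lt_of_le (by positivity) h6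
  have hq1 : q ≠ 1 := fun h => by rw [h, sub_self, norm_zero] at h7; exact lt_irrefl _ h7
  rw [h1, geom_sum_eq hq1, norm_div]
  have hqn : ‖q‖ = 1 := by rw [hq, mul_comm]; exact Complex.norm_exp_ofReal_mul_I x
  have h8 : ‖q ^ (2 * w) - 1‖ ≤ 2 := by
    refine (norm_sub_le _ _).trans ?_
    rw [norm_pow, hqn, one_pow, norm_one]; norm_num
  calc ‖q ^ (2 * w) - 1‖ / ‖q - 1‖ ≤ 2 / (4 * (l : ℝ) / M) := div_le_div₀ (by norm_num) h8 (by positivity) h6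
    _ = M / (2 * l) := by field_simp; norm_num

/-- the cells -/
lemma FEJ_cell {α : Type} (X : Finset α) (f : α → ℕ) (M w : ℕ) (hw : 0 < w) :
    w * (((X ×ˢ X).filter fun z => f z.1 % M / w = f z.2 % M / w).card)
      ≤ (((X ×ˢ range (2 * w)) ×ˢ (X ×ˢ range (2 * w))).filter fun z => (M : ℤ) ∣ ((f z.1.1 + z.1.2 : ℕ) : ℤ) - ((f z.2.1 + z.2.2 : ℕ) : ℤ)).card := by
  rw [mul_comm, ← Finset.card_range w, ← Finset.card_product]
  rw [Finset.card_range]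
  refine Finset.card_le_card_of_injOn (fun z => ((z.1.1, f z.1.2 % M % w + z.2), (z.1.2, f z.1.1 % M % w + z.2))) ?_ ?_
  · rintro ⟨⟨x, y⟩, k⟩ h
    simp only [Finset.coe_product, Finset.coe_filter, Set.mem_prod, Set.mem_ofPred_eq, Finset.mem_product, Finset.coe_range, Set.mem_Iio] at h
    obtain ⟨⟨⟨hx, hy⟩, hc⟩, hk⟩ := h
    simp only [Finset.coe_filter, Set.mem_ofPred_eq, Finset.mem_product, Finset.mem_range]
    have h1 := Nat.mod_lt (f y % M) hw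
    have h2 := Nat.mod_lt (f x % M) hw
    refine ⟨⟨⟨hx, by omega⟩, ⟨hy, by omega⟩⟩, ?_⟩
    have e1 := Nat.div_add_mod (f x % M) w
    have e2 := Nat.div_add_mod (f y % M) w
    have e3 := Nat.div_add_mod (f x) M
    have e4 := Nat.div_add_mod (f y) M
    rw [hc] at e1
    refine ⟨((f x / M : ℕ) : ℤ) - ((f y / M : ℕ) : ℤ), ?_⟩
    have e5 : ((f x : ℕ) : ℤ) = M * ((f x / M : ℕ) : ℤ) + (w * ((f y % M / w : ℕ) : ℤ) + ((f x % M % w : ℕ) : ℤ)) := by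
      have : f x = M * (f x / M) + (w * (f y % M / w) + f x % M % w) := by rw [e1, e3]
      exact_mod_cast this
    have e6 : ((f y : ℕ) : ℤ) = M * ((f y / M : ℕ) : ℤ) + (w * ((f y % M / w : ℕ) : ℤ) + ((f y % M % w : ℕ) : ℤ)) := by
      have : f y = M * (f y / M) + (w * (f y % M / w) + f y % M % w) := by rw [e2, e4]
      exact_mod_cast this
    push_cast at e5 e6 ⊢
    linear_combination e5 - e6
  · rintro ⟨⟨x, y⟩, k⟩ _ ⟨⟨x', y'⟩, k'⟩ _ h
    simp only [Prod.mk.injEq] at h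
    obtain ⟨⟨h1, h2⟩, h3, h4⟩ := h
    subst h1 h3
    have : k = k' := by omega
    rw [this]

lemma FEJ_prod {α : Type} (X : Finset α) (f : α → ℕ) (M w l : ℕ) :
    FEJ_E (X ×ˢ range (2 * w)) (fun z => f z.1 + z.2) M l = FEJ_E X f M l * FEJ_E (range (2 * w)) id M l := by
  unfold FEJ_E
  rw [Finset.sum_mul_sum, Finset.sum_product]
  refine Finset.sum_congr rfl fun x _ => Finset.sum_congr rfl fun s _ => ?_
  rw [← Complex.exp_add]
  congr 1
  push_cast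
  simp only [id]
  ring

lemma FEJ_exp (M l g : ℕ) : ‖Complex.exp (2 * Real.pi * Complex.I * (l : ℂ) * (g : ℂ) / (M : ℂ))‖ = 1 := by
  have h : 2 * Real.pi * Complex.I * (l : ℂ) * (g : ℂ) / (M : ℂ) = ((2 * Real.pi * l * g / M : ℝ) : ℂ) * Complex.I := by
    push_cast; ring
  rw [h]
  exact Complex.norm_exp_ofReal_mul_I _

lemma FEJ_triv {β : Type} (T : Finset β) (g : β → ℕ) (M l : ℕ) : ‖FEJ_E T g M l‖ ≤ T.card := by
  unfold FEJ_E
  refine (norm_sum_le _ _).trans ?_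
  rw [Finset.sum_congr rfl fun t _ => FEJ_exp M l (g t)]
  simp

theorem FEJ_proof : FEJ_stmt := by
  intro α X f a b K hX hba hK
  have hXc : (0 : ℝ) < X.card := by exact_mod_cast hX.card_pos
  have hKp : (0 : ℝ) < K := by exact_mod_cast hK
  have hle : (((X ×ˢ X).filter (fun z => f z.1 % 2 ^ a / 2 ^ b = f z.2 % 2 ^ a / 2 ^ b)).card : ℝ) ≤ (X.card : ℝ) ^ 2 := by
    have h1 := Finset.card_filter_le (X ×ˢ X) (fun z => f z.1 % 2 ^ a / 2 ^ b = f z.2 % 2 ^ a / 2 ^ b)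
    rw [Finset.card_product] at h1
    have h2 : (((X ×ˢ X).filter (fun z => f z.1 % 2 ^ a / 2 ^ b = f z.2 % 2 ^ a / 2 ^ b)).card : ℝ) ≤ ((X.card * X.card : ℕ) : ℝ) := by
      exact_mod_cast h1
    push_cast at h2
    rwa [pow_two]
  have hsum0 : 0 ≤ ∑ l ∈ Finset.Icc 1 K, ‖ch X f (2 ^ a) (l : ℤ)‖ ^ 2 := Finset.sum_nonneg fun _ _ => by positivity
  rcases eq_or_lt_of_le hba with hab | hab
  · refine hle.trans ?_
    rw [hab, div_self (by positivity)]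
    have h1 : (0 : ℝ) ≤ (2 : ℝ) ^ a / (2 ^ a * 2 * K) := by positivity
    have h2 : (0 : ℝ) ≤ (X.card : ℝ) ^ 2 := by positivity
    nlinarith
  -- the main case
  obtain ⟨M, hM⟩ : ∃ M : ℕ, M = 2 ^ a := ⟨_, rfl⟩
  obtain ⟨w, hw⟩ : ∃ w : ℕ, w = 2 ^ b := ⟨_, rfl⟩
  have hMr : (2 : ℝ) ^ a = M := by rw [hM]; push_cast; rfl
  have hwr : (2 : ℝ) ^ b = w := by rw [hw]; push_cast; rfl
  have hMp : 0 < M := by rw [hM]; positivity
  have hwp : 0 < w := by rw [hw]; positivity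
  have hMp' : (0 : ℝ) < M := by exact_mod_cast hMp
  have hwp' : (0 : ℝ) < w := by exact_mod_cast hwp
  obtain ⟨h, hMe⟩ : ∃ h : ℕ, M = 2 * h := by
    obtain ⟨n, rfl⟩ : ∃ n, a = n + 1 := ⟨a - 1, by omega⟩
    exact ⟨2 ^ n, by rw [hM, pow_succ]; omega⟩
  rw [← hM, ← hw, hMr, hwr]
  obtain ⟨F, hF⟩ : ∃ F : ℕ → ℝ, F = fun l => ‖FEJ_E X f M l‖ ^ 2 * ‖FEJ_E (range (2 * w)) id M l‖ ^ 2 := ⟨_, rfl⟩
  have hF0 : ∀ l, 0 ≤ F l := fun l => by rw [hF]; positivity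
  -- Parseval
  have hpars := FEJ_pars (X ×ˢ range (2 * w)) (fun z => f z.1 + z.2) M hMp
  have hpars2 : ∑ l ∈ range M, ‖FEJ_E (X ×ˢ range (2 * w)) (fun z => f z.1 + z.2) M l‖ ^ 2 = ∑ l ∈ range M, F l := by
    refine Finset.sum_congr rfl fun l _ => ?_
    rw [FEJ_prod, norm_mul, mul_pow, hF]
  rw [hpars2] at hpars
  have hcell := FEJ_cell X f M w hwp
  obtain ⟨Q, hQ⟩ : ∃ Q : ℕ, Q = ((X ×ˢ X).filter fun z => f z.1 % M / w = f z.2 % M / w).card := ⟨_, rfl⟩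
  rw [← hQ] at hcell ⊢
  have h1 : (M : ℝ) * (w * Q) ≤ ∑ l ∈ range M, F l := by
    rw [hpars]
    refine mul_le_mul_of_nonneg_left ?_ hMp'.le
    exact_mod_cast hcell
  -- symmetry
  have hsym : ∀ l, l ≤ M → F (M - l) = F l := by
    intro l hl
    rw [hF]
    show ‖FEJ_E X f M (M - l)‖ ^ 2 * ‖FEJ_E (range (2 * w)) id M (M - l)‖ ^ 2 = _
    rw [FEJ_conj X f M l hMp hl, FEJ_conj (range (2 * w)) id M l hMp hl]
  have hhp : 0 < h := by omega
  have h2 : ∑ l ∈ range M, F l ≤ F 0 + 2 * ∑ l ∈ Ioc 0 h, F l := by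
    have e1 : ∑ l ∈ range M, F l = F 0 + ∑ l ∈ Ioc 0 (M - 1), F l := by
      have : range M = insert 0 (Ioc 0 (M - 1)) := by
        ext l
        simp only [mem_range, mem_insert, mem_Ioc]
        omega
      rw [this, Finset.sum_insert (by simp)]
    have e2 : ∑ l ∈ Ioc 0 (M - 1), F l = ∑ l ∈ Ioc 0 h, F l + ∑ l ∈ Ioc h (M - 1), F l :=
      (Finset.sum_Ioc_consecutive F (by omega) (by omega)).symm
    have e3 : ∑ l ∈ Ioc h (M - 1), F l ≤ ∑ l ∈ Ioc 0 h, F l := by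
      have e4 : ∑ l ∈ Ioc h (M - 1), F l = ∑ l ∈ (Ioc h (M - 1)).image (fun l => M - l), F l := by
        rw [Finset.sum_image]
        · refine Finset.sum_congr rfl fun l hl => ?_
          rw [mem_Ioc] at hl
          exact (hsym l (by omega)).symm
        · intro x hx y hy hxy
          simp only [Finset.coe_Ioc, Set.mem_Ioc] at hx hy
          simp only at hxy
          omega
      rw [e4]
      refine Finset.sum_le_sum_of_subset_of_nonneg ?_ fun l _ _ => hF0 l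
      intro l hl
      rw [mem_image] at hl
      obtain ⟨k, hk, rfl⟩ := hl
      rw [mem_Ioc] at hk ⊢
      omega
    rw [e1, e2]
    linarith
  -- the bounds
  have hC : ∀ l : ℕ, ‖FEJ_E X f M l‖ = X.card * ‖ch X f M (l : ℤ)‖ := by
    intro l
    have : ch X f M (l : ℤ) = FEJ_E X f M l / X.card := by
      unfold ch FEJ_E
      push_cast
      rfl
    rw [this, norm_div, Complex.norm_natCast]
    field_simp
  have hW1 : ∀ l, ‖FEJ_E (range (2 * w)) id M l‖ ≤ 2 * w := by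
    intro l
    have := FEJ_triv (range (2 * w)) id M l
    rw [card_range] at this
    exact_mod_cast this
  have hCle : ∀ l, ‖FEJ_E X f M l‖ ≤ X.card := fun l => FEJ_triv X f M l
  obtain ⟨B, hB⟩ : ∃ B : ℕ → ℝ, B = fun l => if l ≤ K then (2 * (w : ℝ)) ^ 2 * ((X.card : ℝ) ^ 2 * ‖ch X f M (l : ℤ)‖ ^ 2)
    else (X.card : ℝ) ^ 2 * (M : ℝ) ^ 2 / 4 * ((l : ℝ) ^ 2)⁻¹ := ⟨_, rfl⟩
  have hFB : ∀ l ∈ Ioc 0 h, F l ≤ B l := by
    intro l hl
    rw [mem_Ioc] at hl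
    rw [hF, hB]
    show ‖FEJ_E X f M l‖ ^ 2 * ‖FEJ_E (range (2 * w)) id M l‖ ^ 2 ≤ if l ≤ K then _ else _
    have hlp : (0 : ℝ) < l := by exact_mod_cast hl.1
    split_ifs with hlK
    · rw [hC, mul_pow, mul_comm]
      refine mul_le_mul_of_nonneg_right (pow_le_pow_left₀ (norm_nonneg _) (hW1 l) 2) (by positivity)
    · have hw2 := FEJ_W M w l hl.1 (by omega)
      have e1 : ‖FEJ_E X f M l‖ ^ 2 * ‖FEJ_E (range (2 * w)) id M l‖ ^ 2 ≤ (X.card : ℝ) ^ 2 * ((M : ℝ) / (2 * l)) ^ 2 :=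
        mul_le_mul (pow_le_pow_left₀ (norm_nonneg _) (hCle l) 2) (pow_le_pow_left₀ (norm_nonneg _) hw2 2) (by positivity) (by positivity)
      refine e1.trans (le_of_eq ?_)
      field_simp
      norm_num
  have hB0 : ∀ l, 0 ≤ B l := by
    intro l
    rw [hB]
    show 0 ≤ if l ≤ K then _ else _
    split_ifs <;> positivity
  have h3 : ∑ l ∈ Ioc 0 h, F l ≤ (2 * (w : ℝ)) ^ 2 * (X.card : ℝ) ^ 2 * ∑ l ∈ Icc 1 K, ‖ch X f M (l : ℤ)‖ ^ 2
      + (X.card : ℝ) ^ 2 * (M : ℝ) ^ 2 / 4 * (1 / K) := by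
    calc ∑ l ∈ Ioc 0 h, F l ≤ ∑ l ∈ Ioc 0 h, B l := Finset.sum_le_sum hFB
      _ ≤ ∑ l ∈ Ioc 0 (K + h), B l := by
        refine Finset.sum_le_sum_of_subset_of_nonneg ?_ fun l _ _ => hB0 l
        exact Finset.Ioc_subset_Ioc_right (by omega)
      _ = ∑ l ∈ Ioc 0 K, B l + ∑ l ∈ Ioc K (K + h), B l := (Finset.sum_Ioc_consecutive B (by omega) (by omega)).symm
      _ ≤ _ := by
        refine add_le_add ?_ ?_
        · rw [Finset.mul_sum]
          have hIcc : Ioc 0 K = Icc 1 K := by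
            ext l; simp only [mem_Ioc, mem_Icc]; omega
          rw [hIcc]
          refine le_of_eq (Finset.sum_congr rfl fun l hl => ?_)
          rw [mem_Icc] at hl
          rw [hB]
          show (if l ≤ K then _ else _) = _
          rw [if_pos hl.2]
          ring
        · have e1 : ∑ l ∈ Ioc K (K + h), B l = ∑ l ∈ Ioc K (K + h), (X.card : ℝ) ^ 2 * (M : ℝ) ^ 2 / 4 * ((l : ℝ) ^ 2)⁻¹ := by
            refine Finset.sum_congr rfl fun l hl => ?_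
            rw [mem_Ioc] at hl
            rw [hB]
            show (if l ≤ K then _ else _) = _
            rw [if_neg (by omega)]
          rw [e1, ← Finset.mul_sum]
          refine mul_le_mul_of_nonneg_left ?_ (by positivity)
          refine (sum_Ioc_inv_sq_le_sub (by omega) (by omega)).trans ?_
          rw [one_div]
          have : (0 : ℝ) ≤ ((K + h : ℕ) : ℝ)⁻¹ := by positivity
          linarith
  have hF00 : F 0 ≤ (X.card : ℝ) ^ 2 * (2 * w) ^ 2 := by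
    rw [hF]
    exact mul_le_mul (pow_le_pow_left₀ (norm_nonneg _) (hCle 0) 2) (pow_le_pow_left₀ (norm_nonneg _) (hW1 0) 2) (by positivity) (by positivity)
  have h4 : (M : ℝ) * (w * Q) ≤ (X.card : ℝ) ^ 2 * (2 * w) ^ 2 + 2 * ((2 * (w : ℝ)) ^ 2 * (X.card : ℝ) ^ 2 * ∑ l ∈ Icc 1 K, ‖ch X f M (l : ℤ)‖ ^ 2
      + (X.card : ℝ) ^ 2 * (M : ℝ) ^ 2 / 4 * (1 / K)) := by linarith
  have h5 : (Q : ℝ) ≤ ((X.card : ℝ) ^ 2 * (2 * w) ^ 2 + 2 * ((2 * (w : ℝ)) ^ 2 * (X.card : ℝ) ^ 2 * ∑ l ∈ Icc 1 K, ‖ch X f M (l : ℤ)‖ ^ 2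
      + (X.card : ℝ) ^ 2 * (M : ℝ) ^ 2 / 4 * (1 / K))) / (M * w) := by
    rw [le_div_iff₀ (by positivity)]
    linarith
  refine h5.trans (le_of_eq ?_)
  field_simp
  ring

end Pool.Agent.HF
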